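import Mathlib
import Pool.Agent.H58R.Asm3

set_option autoImplicit false

/-!
# Rational points of `G_m^n` over the field of a group of radicals

Here `K = ℚ` and `G = G_m^n`; points of `G` over the algebraic closure are the functions
`Fin n → (AlgebraicClosure ℚ)ˣ`.
-/

namespace Pool.Agent.Results.MP_187c26_nt.RadicalGroups

open Pool.Agent.H58P (Qb ht)

/-- the canonical height of a point of `G_m^n`: the sum of the absolute logarithmic Weil heights
of the coordinates -/
noncomputable def hG {n : ℕ} (x : Fin n → (AlgebraicClosure ℚ)ˣ) : ℝ :=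
  ∑ i, NumberField.absLogHeight₁ (x i : AlgebraicClosure ℚ)

/-- `ℚ(Γ)`, the field generated by the coordinates of the points of `Γ` -/
noncomputable def coordField {n : ℕ} (Γ : Subgroup (Fin n → (AlgebraicClosure ℚ)ˣ)) :
    IntermediateField ℚ (AlgebraicClosure ℚ) :=
  IntermediateField.adjoin ℚ {y | ∃ g ∈ Γ, ∃ i, y = (g i : AlgebraicClosure ℚ)}

/-- the saturation of `Γ`: the points with a positive power in `Γ` -/
def InSat {n : ℕ} (Γ : Subgroup (Fin n → (AlgebraicClosure ℚ)ˣ))
    (x : Fin n → (AlgebraicClosure ℚ)ˣ) : Prop := ∃ N : ℕ, 0 < N ∧ x ^ N ∈ Γ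

/-- the group generated by the numbers `r p k`, `p ∈ P`, `k = 0, 1, 2, …` -/
noncomputable def radicalGroup (P : Finset ℕ) (r : ℕ → ℕ → (AlgebraicClosure ℚ)ˣ) :
    Subgroup (AlgebraicClosure ℚ)ˣ :=
  Subgroup.closure {g | ∃ p ∈ P, ∃ k, g = r p k}

/-- its `n`-th power, a subgroup of `G_m^n` -/
noncomputable def radicalGroupPow (P : Finset ℕ) (r : ℕ → ℕ → (AlgebraicClosure ℚ)ˣ) (n : ℕ) :
    Subgroup (Fin n → (AlgebraicClosure ℚ)ˣ) :=
  Subgroup.pi Set.univ fun _ => radicalGroup P r

/-- **Main theorem.** Let `P` be a finite set of primes and let `s p`, `p ∈ P`, be nonzero rational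
numbers such that, for every `p ∈ P`, the `p`-adic order of `s p` is zero or not divisible by `p`
(a squarefree integer `s p` satisfies this for every `p`). For `p ∈ P` let
`r p 0, r p 1, …` be a sequence with `r p 0 = s p` and `r p (k + 1) ^ p = r p k`, and let `Γ` be the
group generated by all `r p k`. Then there is `c > 0` such that, for every `n`, every point of
`G_m^n` with coordinates in `ℚ(Γ^n)` which is not in the saturation of `Γ^n` has height at
least `c`. -/
theorem result (P : Finset ℕ) (hP : ∀ p ∈ P, p.Prime) (s : ℕ → ℚ)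
    (hs : ∀ p ∈ P, ¬ (p : ℤ) ∣ padicValRat p (s p) ∨ padicValRat p (s p) = 0)
    (r : ℕ → ℕ → (AlgebraicClosure ℚ)ˣ)
    (hr0 : ∀ p ∈ P, (r p 0 : AlgebraicClosure ℚ) = algebraMap ℚ (AlgebraicClosure ℚ) (s p))
    (hr : ∀ p ∈ P, ∀ k, r p (k + 1) ^ p = r p k) :
    ∃ c : ℝ, 0 < c ∧ ∀ (n : ℕ) (x : Fin n → (AlgebraicClosure ℚ)ˣ),
      (∀ i, (x i : AlgebraicClosure ℚ) ∈ coordField (radicalGroupPow P r n)) →
      ¬ InSat (radicalGroupPow P r n) x → c ≤ hG x := by
  classical
  obtain ⟨c, hc, hcβ⟩ := Pool.Agent.H58R.main_rat3 P hP s (fun p => r p 0) hr0 hs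
    (fun p k => (r p k : Qb)) (fun p _ => rfl)
    (fun p hp k => by rw [← hr p hp k]; push_cast; rfl)
  set F := Pool.Agent.H58R.tower ⊥ P (fun p k => (r p k : Qb)) with hF
  have hrF : ∀ p ∈ P, ∀ k, (r p k : Qb) ∈ F := fun p hp k =>
    (le_sup_right : IntermediateField.adjoin ℚ {y | ∃ p ∈ P, ∃ k, y = (r p k : Qb)} ≤ F)
      (IntermediateField.subset_adjoin ℚ _ ⟨p, hp, k, rfl⟩)
  let UF : Subgroup (AlgebraicClosure ℚ)ˣ :=
    { carrier := {g | (g : Qb) ∈ F}
      mul_mem' := by
        intro g g' hg hg'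
        show ((g * g' : Qbˣ) : Qb) ∈ F
        push_cast
        exact mul_mem hg hg'
      one_mem' := by
        show ((1 : Qbˣ) : Qb) ∈ F
        push_cast
        exact one_mem F
      inv_mem' := by
        intro g hg
        show ((g⁻¹ : Qbˣ) : Qb) ∈ F
        push_cast
        exact inv_mem hg }
  have hΓF : radicalGroup P r ≤ UF := by
    apply (Subgroup.closure_le UF).mpr
    rintro g ⟨p, hp, k, rfl⟩
    exact hrF p hp k
  have hcoord : ∀ n : ℕ, coordField (radicalGroupPow P r n) ≤ F := by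
    intro n
    apply IntermediateField.adjoin_le_iff.mpr
    rintro y ⟨g, hg, i, rfl⟩
    exact hΓF (hg i (Set.mem_univ i))
  refine ⟨c, hc, fun n x hx hns => ?_⟩
  have hex : ∃ i, ¬ ∃ N : ℕ, 0 < N ∧ x i ^ N ∈ radicalGroup P r := by
    by_contra hcon
    push Not at hcon
    choose N hN hxN using hcon
    apply hns
    refine ⟨∏ i, N i, Finset.prod_pos (fun i _ => hN i), ?_⟩
    intro i _
    show x i ^ (∏ j, N j) ∈ radicalGroup P r
    rw [← Finset.mul_prod_erase Finset.univ N (Finset.mem_univ i), pow_mul]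
    exact pow_mem (hxN i) _
  obtain ⟨i, hi⟩ := hex
  have h1 : c ≤ ht (x i : Qb) := by
    apply hcβ _ (hcoord n (hx i)) (x i).ne_zero
    rintro ⟨N, hN, g, hg, hgN⟩
    apply hi
    refine ⟨N, hN, ?_⟩
    have e : x i ^ N = g := Units.ext (by push_cast; exact hgN)
    rw [e]
    have hle : Subgroup.closure ((fun p => r p 0) '' (P : Set ℕ)) ≤ radicalGroup P r := by
      apply Subgroup.closure_mono
      rintro y ⟨p, hp, rfl⟩
      exact ⟨p, hp, 0, rfl⟩
    exact hle hg
  have h2 : ∀ j, 0 ≤ NumberField.absLogHeight₁ (x j : AlgebraicClosure ℚ) := by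
    intro j
    rw [Pool.Agent.H58P.absLogHeight₁_eq]
    exact Pool.Agent.H58R.ht_nonneg _
  unfold hG
  refine le_trans ?_ (Finset.single_le_sum (fun j _ => h2 j) (Finset.mem_univ i))
  rw [Pool.Agent.H58P.absLogHeight₁_eq]
  exact h1

end Pool.Agent.Results.MP_187c26_nt.RadicalGroups
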